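import Pool.Agent.Helper97.QF.All
import Pool.Agent.Helper11.QQ.Res

/-!
# Rational surfaces in complete intersections of coindex at most three

`k` is an algebraically closed field of characteristic different from `2`, `X` in `ℙ^n` a smooth
complete intersection of `r` hypersurfaces of degrees `d_l ≥ 2`, of dimension `n - r ≥ 3`, with
`∑ (d_l - 1) ≤ 3`; if some `d_l` is not `2`, the characteristic is also different from `3`. Then `X`
contains a rational surface. For `r > 0` these are the smooth complete intersections which are Fano of
dimension `m ≥ 3` and index at least `m - 2`: the types (2), (3), (2,2), (4), (2,3), (2,2,2); in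
particular all smooth Fano threefolds which are complete intersections.

A rational map from the plane to `ℙ^n` is given by homogeneous coordinates `y_0, ..., y_n` in the
function field `K = k(u_0, u_1)` of the plane, not all zero; its image is contained in `X` iff
`f_l(y) = 0` for all `l`, and the function field of the closure of its image is the field generated
over `k` by the quotients `y_j / y_i` (`y_i ≠ 0`). So the map is birational onto its image iff the
quotients generate `K`.

Proof. All types but (2) and (3) use a line `C` in `X` (Helper11/LS for complete intersections,
Helper66/QL for quartics).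
* (2,3) (Helper97/QF): `x` a point of `C`, `u` tangent to `X` at `x`; stereographic projection from `C`
  gives an isotropic tangent vector `v`, and the surface consists of the residual points of these
  lines with the cubic.
* (2,2,2): Helper11/QQ.
* (4): Helper66/QL and Helper72/QT; there the proof uses the tangential points of the plane cubics
  cut by the planes through `C`, in dimension at least four residual points of the lines with contact
  three at one point.
* (2), (3), (2,2) (classical): Helper97/QF.

Authors: helper11 (lines, (2,2,2)), helper97 ((2,3), (2), (3), (2,2), assembly), helper66 and helper72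
and the seats named in SmoothQuartics ((4)), and the seats which proved modules of Helper11/QQ.
-/

set_option autoImplicit false

namespace Pool.Agent.Results.MP_1a304d_ag.CoindexThree

open MvPolynomial

universe u

variable {k : Type u} [Field k] {n r : ℕ}

/-- The common zeros of the forms `f_l` in `ℙ^n` are a smooth complete intersection (Jacobian
criterion). -/
def SmoothCI (f : Fin r → MvPolynomial (Fin (n + 1)) k) : Prop :=
  ∀ x : Fin (n + 1) → k, x ≠ 0 → (∀ l, eval x (f l) = 0) →
    LinearIndependent k (fun l => fun i => eval x (pderiv i (f l)))

/-- The function field `k(u_0, u_1)` of the projective plane. -/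
abbrev K (k : Type u) [Field k] : Type u := FractionRing (MvPolynomial (Fin 2) k)

/-- The set of common zeros of the forms `f_l` contains a rational surface: some rational map from
the plane to it is birational onto (the closure of) its image. -/
def ContainsRationalSurface (f : Fin r → MvPolynomial (Fin (n + 1)) k) : Prop :=
  ∃ y : Fin (n + 1) → K k, (∀ l, aeval y (f l) = 0) ∧
    ∃ i, y i ≠ 0 ∧ IntermediateField.adjoin k (Set.range fun j => y j / y i) = ⊤

theorem result [IsAlgClosed k] (h2 : (2 : k) ≠ 0)
    (f : Fin r → MvPolynomial (Fin (n + 1)) k) (d : Fin r → ℕ) (hd : ∀ l, 2 ≤ d l)
    (hf : ∀ l, (f l).IsHomogeneous (d l)) (hdim : r + 3 ≤ n) (hco : ∑ l, (d l - 1) ≤ 3)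
    (h3 : (3 : k) ≠ 0 ∨ ∀ l, d l = 2) (hS : SmoothCI f) : ContainsRationalSurface f :=
  Pool.Agent.Helper97.QF.all_of h2
    (fun _ hn f hf hS => Pool.Agent.Helper11.QQ.rat_222 h2 hn f hf hS) f d hd hf hdim hco h3 hS

end Pool.Agent.Results.MP_1a304d_ag.CoindexThree
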