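import Pool.Agent.Helper49.CI.Main
import Pool.Agent.Helper49.CI.Contain

/-!
# Rational surfaces in rationally chain connected varieties with conics in the fibres of a rational map

`k` is an algebraically closed field of any characteristic, `X` in `ℙ^n` a smooth integral variety with
ideal `I` which is rationally chain connected (for instance a Fano variety), and `ψ` a rational map from
`X` onto a variety `B` of positive dimension. If the generic fibre of `ψ` contains an integral curve over
`k(B)` which is birational to a smooth conic over `k(B)` (or, in characteristic two, to a wild conic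
`v² + c u² + e = 0`, not a line or a double line over `k(B)`), then `X` contains a rational surface.
Nothing is assumed about `B`.

Proof. As `X` is smooth and rationally chain connected there is a rational curve through the general
point of `B` (limits of `ψ` along arcs at the points where `ψ` is not defined; RU/Chain). Over this curve
`X` contains a conic bundle over the projective line, a rational surface by Tsen's theorem; the equations
of the conic and of its embedding in `X` are specialised (CI/Data).

Authors: helper97 (plan, chains, Main), helper49 (this form, Data, Lift of the ruled case, this file),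
helper26 (wild data), helper33 and helper35 (lifts, wild parametrisation), helper70 (specialisation),
helper87 (Tsen's theorem for conics), helper16 (degenerate conics), and the seats named in Helper97/RU.
-/

set_option autoImplicit false

namespace Pool.Agent.Results.MP_1a304d_ag.ConicsInFibres

open MvPolynomial

universe u

variable {k : Type u} [Field k] {n : ℕ}

/-- The point with homogeneous coordinates `x_i` in the `k`-algebra `L` satisfies the equations in `I`. -/
def On (I : Ideal (MvPolynomial (Fin (n + 1)) k)) {L : Type*} [CommRing L] [Algebra k L]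
    (x : Fin (n + 1) → L) : Prop :=
  ∀ f ∈ I, aeval x f = 0

/-- `X`, the zero locus of `I` in `ℙ^n`, is smooth at the point `x`: near `x` the ideal is generated by
forms `f_1, ..., f_c` whose differentials at `x` are linearly independent (`h (x) ≠ 0`). -/
def SmoothAt (I : Ideal (MvPolynomial (Fin (n + 1)) k)) (x : Fin (n + 1) → k) : Prop :=
  ∃ (c : ℕ) (f : Fin c → MvPolynomial (Fin (n + 1)) k) (d : Fin c → ℕ)
    (h : MvPolynomial (Fin (n + 1)) k) (e : ℕ),
    (∀ j, f j ∈ I) ∧ (∀ j, (f j).IsHomogeneous (d j)) ∧ h.IsHomogeneous e ∧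
    LinearIndependent k (fun j => fun i => aeval x (pderiv i (f j))) ∧ aeval x h ≠ 0 ∧
    ∀ g ∈ I, h * g ∈ Ideal.span (Set.range f)

/-- The points `x` and `x'` lie in the image of a morphism `y` from the projective line to `X`. -/
def Joined (I : Ideal (MvPolynomial (Fin (n + 1)) k)) (x x' : Fin (n + 1) → k) : Prop :=
  ∃ (d : ℕ) (y : Fin (n + 1) → MvPolynomial (Fin 2) k), (∀ i, (y i).IsHomogeneous d) ∧
    (∀ s : Fin 2 → k, s ≠ 0 → (fun i => eval s (y i)) ≠ 0 ∧ On I (fun i => eval s (y i))) ∧
    (∃ s : Fin 2 → k, s ≠ 0 ∧ ∃ c : k, c ≠ 0 ∧ ∀ i, eval s (y i) = c * x i) ∧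
    ∃ s : Fin 2 → k, s ≠ 0 ∧ ∃ c : k, c ≠ 0 ∧ ∀ i, eval s (y i) = c * x' i

/-- Any two points of `X` are joined by a chain of rational curves in `X`. -/
def ChainConnected (I : Ideal (MvPolynomial (Fin (n + 1)) k)) : Prop :=
  ∀ x x' : Fin (n + 1) → k, x ≠ 0 → x' ≠ 0 → On I x → On I x' →
    Relation.ReflTransGen (Joined I) x x'

/-- The forms `ψ_l` of one degree define a rational map from `X` to a projective space; the closure of
its image is the variety `B` with function field `E` and generic point `ε`. -/
def IsImage (I : Ideal (MvPolynomial (Fin (n + 1)) k)) {r : ℕ}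
    (ψ : Fin r → MvPolynomial (Fin (n + 1)) k) {E : Type u} [Field E] [Algebra k E]
    (ε : Fin r → E) : Prop :=
  (∃ m : ℕ, ∀ l, (ψ l).IsHomogeneous m) ∧
    (∀ (g : MvPolynomial (Fin r) k) (s : ℕ), g.IsHomogeneous s →
      (bind₁ ψ g ∈ I ↔ aeval ε g = 0)) ∧
    ∃ l, ε l ≠ 0 ∧ IntermediateField.adjoin k (Set.range fun l' => ε l' / ε l) = ⊤

/-- `F` is the function field of a conic `v² + (a u + b) v + c u² + d u + e = 0` over `E`, which is
smooth, or wild (of characteristic `2`, with `a = b = d = 0`, not a line or a double line over `E`). -/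
def ConicField (k E F : Type u) [Field k] [Field E] [Field F] [Algebra E F] : Prop :=
  ∃ (a b c d e : E) (u v : F), Transcendental E u ∧
    v ^ 2 + (algebraMap E F a * u + algebraMap E F b) * v + algebraMap E F c * u ^ 2 +
      algebraMap E F d * u + algebraMap E F e = 0 ∧
    IntermediateField.adjoin E {u, v} = ⊤ ∧
    (4 * c * e + a * b * d - c * b ^ 2 - d ^ 2 - e * a ^ 2 ≠ 0 ∨
      ((2 : k) = 0 ∧ a = 0 ∧ b = 0 ∧ d = 0 ∧ v ∉ IntermediateField.adjoin E {u}))

/-- `X` has a rational map `ψ` onto a variety `B` of positive dimension (with function field `E` and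
generic point `ε`) whose generic fibre contains an integral curve over `E` (with function field `F` and
generic point `y`) which is birational to a conic over `E` as in `ConicField`. -/
def ConicInFibre (I : Ideal (MvPolynomial (Fin (n + 1)) k)) : Prop :=
  ∃ (r : ℕ) (ψ : Fin r → MvPolynomial (Fin (n + 1)) k) (E F : Type u) (_ : Field E) (_ : Field F)
    (_ : Algebra k E) (_ : Algebra k F) (_ : Algebra E F) (_ : IsScalarTower k E F)
    (ε : Fin r → E) (y : Fin (n + 1) → F) (κ : F),
    IsImage I ψ ε ∧ (∃ t : E, Transcendental k t) ∧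
    On I y ∧ κ ≠ 0 ∧ (∀ l, aeval y (ψ l) = κ * algebraMap E F (ε l)) ∧
    (∃ i, y i ≠ 0 ∧ IntermediateField.adjoin E (Set.range fun j => y j / y i) = ⊤) ∧
    ConicField k E F

/-- `X` contains a rational surface: some rational map from the plane to `X`, with coordinates in the
function field `k(u_0, u_1)` of the plane, is birational onto (the closure of) its image. -/
def ContainsRationalSurface (I : Ideal (MvPolynomial (Fin (n + 1)) k)) : Prop :=
  ∃ y : Fin (n + 1) → FractionRing (MvPolynomial (Fin 2) k), On I y ∧
    ∃ i, y i ≠ 0 ∧ IntermediateField.adjoin k (Set.range fun j => y j / y i) = ⊤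

/-- The definition in the form of Helper49/CI. -/
private theorem to_cif {I : Ideal (MvPolynomial (Fin (n + 1)) k)} (h : ConicInFibre I) :
    Pool.Agent.Helper49.CI.ConicInFibre I := by
  obtain ⟨r, ψ, E, F, iE, iF, ikE, ikF, iEF, itow, ε, y, κ, ⟨⟨m, hm⟩, hg, hl⟩, ht, hy, hκ, hψy, hF,
    a, b, c, d, e, u, v, hu, heq, htop, hcase⟩ := h
  exact ⟨r, m, ψ, E, F, iE, iF, ikE, ikF, iEF, itow, ε, κ, y, a, b, c, d, e, u, v, hm, hg, hl, ht, hy,
    hκ, hψy, hF, hu, heq, htop, hcase⟩

theorem result [IsAlgClosed k] (I : Ideal (MvPolynomial (Fin (n + 1)) k)) (hI : I.IsPrime)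
    (hH : ∀ f ∈ I, ∀ d : ℕ, homogeneousComponent d f ∈ I)
    (hsm : ∀ x : Fin (n + 1) → k, x ≠ 0 → On I x → SmoothAt I x)
    (hrc : ChainConnected I) (hc : ConicInFibre I) : ContainsRationalSurface I :=
  Pool.Agent.Helper49.CI.main_cif hI hH hsm hrc (to_cif hc)

end Pool.Agent.Results.MP_1a304d_ag.ConicsInFibres
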