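import Pool.Agent.Helper97.DC.Main

/-!
# Rational surfaces in Fano double covers of coindex at most three

`k` is an algebraically closed field of characteristic different from `2` and `3`, `Y` in `ℙ^n` the
complete intersection of `r` hypersurfaces `f_l = 0` of degrees `d_l ≥ 2` (`Y = ℙ^n` if `r = 0`), `g` a
form of degree `2 m`, `m ≥ 2`, and `X` the double cover `w² = g` of `Y` branched along `g = 0`. If `X` is
smooth, `∑ (d_l - 1) + m ≤ 3` and `dim X = n - r ≥ m + 1`, then `X` contains a rational surface.

`X` is a Fano variety of coindex `∑ (d_l - 1) + m`, that is, of index `dim X + 1 - ∑ (d_l - 1) - m`. The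
types: double covers of `ℙ^n`, `n ≥ 4`, branched along sextics; double covers of quadrics, of dimension
`≥ 3`, branched along quartic sections; double covers of `ℙ^n`, `n ≥ 3`, branched along quartics. The
only type of coindex `≤ 3` and dimension `≥ 3` which is missing are the sextic double solids.

A rational map from the plane to `X` is given by coordinates `y_0, ..., y_n, w` in the function field
`K = k(u_0, u_1)` of the plane, with weights `1, ..., 1, m`; the function field of its image is generated
over `k` by the quotients `y_j / y_i` and `w / y_i ^ m` (`y_i ≠ 0`).

Proof. Let `T_j (p, θ)` be the coefficient of `r ^ j` in `g (p + r θ)`.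
* Sextics (Helper97/SD). The double cover of the line with direction `θ` at a point `p` of the branch
  locus, `T_1 = T_2 = 0`, `T_3 (p, θ) ≠ 0`, is unirational; for `T_1 = 0` and `T_2 ≠ 0` it is the curve
  `ω² = T_2 + T_3 r + T_4 r² + T_5 r³ + T_6 r⁴`, `w = r ω`, of genus one with a rational point over
  `k(θ)(√T_2)`: tripling this point gives a map from the quadric cone `ω² = T_2 (p, θ)`, `θ` in a three
  dimensional space of tangent vectors. It is birational onto its image if `T_3 ≠ 0` at some isotropic
  vector which is not in the radical of the second fundamental form (StepA, SurfA). If there are no such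
  vectors at all, the second fundamental forms have rank at most one and the double covers of the lines
  in the radical are `w'² = T_4 + T_5 r + T_6 r²`, with `T_4` a square: a rational surface for a pencil
  of such lines (Step0, RankOne, StepR, SurfB). In characteristic `5` there can be a family of lines
  with `T_1 = ... = T_4 = 0`, `T_5 ≠ 0` instead (SurfC). That no other cases occur follows from the
  smoothness of `g = 0`, because a hypersurface which contains a linear space or a quadric of
  codimension at most two is singular.
* Quartics (Helper97/DC). A line `p + t θ` in `Y` tangent to `g = 0` at `p`, with `g (θ) ≠ 0`, has a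
  rational double cover; through its points go lines in `Y` whose double covers are curves of genus one,
  on which the points of this rational curve are tripled.

Authors: helper97 (theorem, proof plan, Main of SD and DC); Helper97/SD: helper30 (Basic), helper13
(Newton), helper75 (Flow, Step0), helper36 (Cone), helper76 (Quadric), helper69 (StepA), helper66
(RankOne), helper16 (StepR), helper90 (SurfA), helper67 (SurfB); Helper97/DC: helper36 (Triple),
helper39 and helper67 (Core), helper26 (P4), helper35 and helper69 (Choice), helper76 (Q4); helper77
(hostile check of the proof).
-/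

set_option autoImplicit false

namespace Pool.Agent.Results.MP_1a304d_ag.DoubleCovers

open MvPolynomial

universe u

variable {k : Type u} [Field k] {n r : ℕ}

/-- The double cover `X` of the complete intersection `Y = {f_l = 0}` branched along `g = 0` is smooth:
at the points of `Y` the differentials of the `f_l` are linearly independent, and at the points of `Y`
with `g = 0` those of the `f_l` and `g` (the Jacobian criterion for the equations `f_l = 0`, `w² = g`
in characteristic different from `2`). -/
def SmoothCover (f : Fin r → MvPolynomial (Fin (n + 1)) k) (g : MvPolynomial (Fin (n + 1)) k) : Prop :=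
  ∀ x : Fin (n + 1) → k, x ≠ 0 → (∀ l, eval x (f l) = 0) →
    LinearIndependent k (fun l => fun i => eval x (pderiv i (f l))) ∧
    (eval x g = 0 → LinearIndependent k
      (Fin.snoc (fun l => fun i => eval x (pderiv i (f l))) (fun i => eval x (pderiv i g)) :
        Fin (r + 1) → Fin (n + 1) → k))

/-- The function field `k(u_0, u_1)` of the projective plane. -/
abbrev K (k : Type u) [Field k] : Type u := FractionRing (MvPolynomial (Fin 2) k)

/-- The double cover `w² = g`, where `w` has weight `m`, of the set of common zeros of the forms `f_l`
contains a rational surface: some rational map from the plane to it is birational onto (the closure of)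
its image. -/
def ContainsRationalSurface (f : Fin r → MvPolynomial (Fin (n + 1)) k)
    (g : MvPolynomial (Fin (n + 1)) k) (m : ℕ) : Prop :=
  ∃ (y : Fin (n + 1) → K k) (w : K k), (∀ l, aeval y (f l) = 0) ∧ w ^ 2 = aeval y g ∧
    ∃ i, y i ≠ 0 ∧
      IntermediateField.adjoin k (Set.range (fun j => y j / y i) ∪ {w / y i ^ m}) = ⊤

theorem result [IsAlgClosed k] (h6 : (6 : k) ≠ 0) (f : Fin r → MvPolynomial (Fin (n + 1)) k)
    (d : Fin r → ℕ) (hd : ∀ l, 2 ≤ d l) (hf : ∀ l, (f l).IsHomogeneous (d l))
    (g : MvPolynomial (Fin (n + 1)) k) {m : ℕ} (hm : 2 ≤ m) (hg : g.IsHomogeneous (2 * m))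
    (hco : ∑ l, (d l - 1) + m ≤ 3) (hdim : r + m + 1 ≤ n) (hS : SmoothCover f g) :
    ContainsRationalSurface f g m :=
  Pool.Agent.Helper97.DC.main h6 hm f d hd hf hdim hco hg hS

end Pool.Agent.Results.MP_1a304d_ag.DoubleCovers
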