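import Pool.Agent.Helper49.CI.MainQ
import Pool.Agent.Helper49.CI.ContainQ

/-!
# Unirational surfaces in rationally chain connected varieties with rational curves, defined over the
# perfect closure of the function field of the base, in the fibres of a rational map

`k` is an algebraically closed field of exponential characteristic `p`, `X` in `ℙ^n` a smooth integral
variety with ideal `I` which is rationally chain connected (for instance a Fano variety), and `ψ` a
rational map from `X` onto a variety `B` of positive dimension. If the generic fibre of `ψ` contains,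
over the perfect closure of `k(B)`, a curve whose normalisation is a smooth conic, then `X` contains a
unirational surface. This is the case if the general fibres of `ψ` are (set-theoretically) rational
curves: wild conic bundles, quasi-elliptic fibrations, fibrations whose fibres have moving
singularities. Nothing is assumed about `B`.

Over the perfect closure `K` of `k(B)` everything is defined over some `E` with `E ^ q` in `k(B)`,
`q = p ^ s`: a smooth conic over `E` with function field `F`, and its map `y` to `X`, birational over
`E` onto its image; then the `q`-th powers of the elements of `F` are in `k(y_j / y_i)`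
(Helper49/CI/DataQ, `pow_mem_adjoin`). Only this is assumed below.

Proof. As `X` is smooth and rationally chain connected there is a rational curve through the general
point of `B`. It is the `q`-th power of a rational curve `b` in the variety with function field `E`, a
specialisation of the conic over `E` is a conic over the function field of `b`, which has a point by
Tsen's theorem, and `y` specialises to a map from the plane to `X` (CI/DataQ, QC/Lift).

Authors: helper97 (plan, chains, QC), helper49 (this form, DataQ, this file), helper70 (lift,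
specialisation), helper35 and helper33 (lifts), helper87 (Tsen's theorem for conics), helper26, and the
seats named in Helper97/RU.
-/

set_option autoImplicit false

namespace Pool.Agent.Results.MP_1a304d_ag.PerfectClosure

open MvPolynomial

universe u

variable {k : Type u} [Field k] {n : ℕ}

/-- The point with homogeneous coordinates `x_i` in the `k`-algebra `L` satisfies the equations in `I`. -/
def On (I : Ideal (MvPolynomial (Fin (n + 1)) k)) {L : Type*} [CommRing L] [Algebra k L]
    (x : Fin (n + 1) → L) : Prop :=
  ∀ f ∈ I, aeval x f = 0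

/-- `X`, the zero locus of `I` in `ℙ^n`, is smooth at the point `x`: near `x` the ideal is generated by
forms `f_1, ..., f_c` whose differentials at `x` are linearly independent (`h (x) ≠ 0`). -/
def SmoothAt (I : Ideal (MvPolynomial (Fin (n + 1)) k)) (x : Fin (n + 1) → k) : Prop :=
  ∃ (c : ℕ) (f : Fin c → MvPolynomial (Fin (n + 1)) k) (d : Fin c → ℕ)
    (h : MvPolynomial (Fin (n + 1)) k) (e : ℕ),
    (∀ j, f j ∈ I) ∧ (∀ j, (f j).IsHomogeneous (d j)) ∧ h.IsHomogeneous e ∧
    LinearIndependent k (fun j => fun i => aeval x (pderiv i (f j))) ∧ aeval x h ≠ 0 ∧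
    ∀ g ∈ I, h * g ∈ Ideal.span (Set.range f)

/-- The points `x` and `x'` lie in the image of a morphism `y` from the projective line to `X`. -/
def Joined (I : Ideal (MvPolynomial (Fin (n + 1)) k)) (x x' : Fin (n + 1) → k) : Prop :=
  ∃ (d : ℕ) (y : Fin (n + 1) → MvPolynomial (Fin 2) k), (∀ i, (y i).IsHomogeneous d) ∧
    (∀ s : Fin 2 → k, s ≠ 0 → (fun i => eval s (y i)) ≠ 0 ∧ On I (fun i => eval s (y i))) ∧
    (∃ s : Fin 2 → k, s ≠ 0 ∧ ∃ c : k, c ≠ 0 ∧ ∀ i, eval s (y i) = c * x i) ∧
    ∃ s : Fin 2 → k, s ≠ 0 ∧ ∃ c : k, c ≠ 0 ∧ ∀ i, eval s (y i) = c * x' i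

/-- Any two points of `X` are joined by a chain of rational curves in `X`. -/
def ChainConnected (I : Ideal (MvPolynomial (Fin (n + 1)) k)) : Prop :=
  ∀ x x' : Fin (n + 1) → k, x ≠ 0 → x' ≠ 0 → On I x → On I x' →
    Relation.ReflTransGen (Joined I) x x'

/-- The forms `ψ_l` of one degree define a rational map from `X` to a projective space; `ε` is the
generic point of the closure `B` of its image, and `E` is an extension of the function field `k(B)`
(which is generated by the quotients of the `ε_l`) such that `E ^ q` is contained in `k(B)`. -/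
def IsImage (q : ℕ) (I : Ideal (MvPolynomial (Fin (n + 1)) k)) {r : ℕ}
    (ψ : Fin r → MvPolynomial (Fin (n + 1)) k) {E : Type u} [Field E] [Algebra k E]
    (ε : Fin r → E) : Prop :=
  (∃ m : ℕ, ∀ l, (ψ l).IsHomogeneous m) ∧
    (∀ (g : MvPolynomial (Fin r) k) (s : ℕ), g.IsHomogeneous s →
      (bind₁ ψ g ∈ I ↔ aeval ε g = 0)) ∧
    ∃ l, ε l ≠ 0 ∧ ∀ z : E, z ^ q ∈ IntermediateField.adjoin k (Set.range fun l' => ε l' / ε l)

/-- `F` is the function field of the smooth conic `v² + (a u + b) v + c u² + d u + e = 0` over `E`. -/
def ConicField (E F : Type u) [Field E] [Field F] [Algebra E F] : Prop :=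
  ∃ (a b c d e : E) (u v : F),
    4 * c * e + a * b * d - c * b ^ 2 - d ^ 2 - e * a ^ 2 ≠ 0 ∧ Transcendental E u ∧
    v ^ 2 + (algebraMap E F a * u + algebraMap E F b) * v + algebraMap E F c * u ^ 2 +
      algebraMap E F d * u + algebraMap E F e = 0 ∧
    IntermediateField.adjoin E {u, v} = ⊤

/-- `X` has a rational map `ψ` onto a variety `B` of positive dimension, `E` is an extension of `k(B)`
with `E ^ q` in `k(B)`, and there is a map `y` over `k(B)` from a smooth conic over `E`, with function
field `F`, to the generic fibre of `ψ`, such that the `q`-th powers of the elements of `F` are rational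
functions of the coordinates of `y`. -/
def RationalCurveInFibre (q : ℕ) (I : Ideal (MvPolynomial (Fin (n + 1)) k)) : Prop :=
  ∃ (r : ℕ) (ψ : Fin r → MvPolynomial (Fin (n + 1)) k) (E F : Type u) (_ : Field E) (_ : Field F)
    (_ : Algebra k E) (_ : Algebra k F) (_ : Algebra E F) (_ : IsScalarTower k E F)
    (ε : Fin r → E) (y : Fin (n + 1) → F) (κ : F),
    IsImage q I ψ ε ∧ (∃ t : E, Transcendental k t) ∧
    On I y ∧ κ ≠ 0 ∧ (∀ l, aeval y (ψ l) = κ * algebraMap E F (ε l)) ∧
    (∃ i, y i ≠ 0 ∧ ∀ z : F, z ^ q ∈ IntermediateField.adjoin k (Set.range fun j => y j / y i)) ∧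
    ConicField E F

/-- `X` contains a unirational surface: there is a rational map from the plane to `X`, with coordinates
in the function field `k(u_0, u_1)` of the plane, whose image has dimension two (`k(u_0, u_1)` is
algebraic over the function field of the closure of the image). -/
def ContainsUnirationalSurface (I : Ideal (MvPolynomial (Fin (n + 1)) k)) : Prop :=
  ∃ y : Fin (n + 1) → FractionRing (MvPolynomial (Fin 2) k), On I y ∧
    ∃ i, y i ≠ 0 ∧ Algebra.IsAlgebraic (IntermediateField.adjoin k (Set.range fun j => y j / y i))
      (FractionRing (MvPolynomial (Fin 2) k))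

/-- The definition in the form of Helper49/CI. -/
private theorem to_hq {q : ℕ} {I : Ideal (MvPolynomial (Fin (n + 1)) k)}
    (h : RationalCurveInFibre q I) : Pool.Agent.Helper49.CI.HasConicQ q I := by
  obtain ⟨r, ψ, E, F, iE, iF, ikE, ikF, iEF, itow, ε, y, κ, ⟨⟨m, hm⟩, hg, hl⟩, ht, hy, hκ, hψy, hF,
    a, b, c, d, e, u, v, hdisc, hu, heq, htop⟩ := h
  exact ⟨r, m, ψ, E, F, iE, iF, ikE, ikF, iEF, itow, ε, a, b, c, d, e, u, v, y, hm, hg, hl, ht,
    hdisc, hu, heq, htop, hy, ⟨κ, hκ, hψy⟩, hF⟩

theorem result [IsAlgClosed k] (p : ℕ) [ExpChar k p] (s : ℕ)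
    (I : Ideal (MvPolynomial (Fin (n + 1)) k)) (hI : I.IsPrime)
    (hH : ∀ f ∈ I, ∀ d : ℕ, homogeneousComponent d f ∈ I)
    (hsm : ∀ x : Fin (n + 1) → k, x ≠ 0 → On I x → SmoothAt I x)
    (hrc : ChainConnected I) (hc : RationalCurveInFibre (p ^ s) I) :
    ContainsUnirationalSurface I :=
  Pool.Agent.Helper49.CI.mainQ p s hI hH hsm hrc (to_hq hc)

end Pool.Agent.Results.MP_1a304d_ag.PerfectClosure
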